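import Mathlib

namespace Pool.Agent.Helper285.Lamp

open scoped symmDiff

/-- the lamplighter group with lamps on the edges of the integer line: `S` is the set of lit
edges (edge `z` joins `z` and `z+1`) and `p` the position -/
@[ext] structure LG where
  S : Finset ℤ
  p : ℤ

namespace LG

def sh (p : ℤ) (S : Finset ℤ) : Finset ℤ := S.map (Equiv.addLeft p).toEmbedding

theorem mem_sh (p z : ℤ) (S : Finset ℤ) : z ∈ sh p S ↔ z - p ∈ S := by
  unfold sh
  rw [Finset.mem_map_equiv]
  have : (Equiv.addLeft p).symm z = z - p := by simp [sub_eq_neg_add]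
  rw [this]

instance : Mul LG := ⟨fun g h => ⟨g.S ∆ sh g.p h.S, g.p + h.p⟩⟩
instance : One LG := ⟨⟨∅, 0⟩⟩
instance : Inv LG := ⟨fun g => ⟨sh (-g.p) g.S, -g.p⟩⟩

theorem mul_S (g h : LG) : (g * h).S = g.S ∆ sh g.p h.S := rfl
@[simp] theorem mul_p (g h : LG) : (g * h).p = g.p + h.p := rfl
@[simp] theorem one_S : (1 : LG).S = ∅ := rfl
@[simp] theorem one_p : (1 : LG).p = 0 := rfl
@[simp] theorem inv_p (g : LG) : (g⁻¹).p = -g.p := rfl
theorem inv_S (g : LG) : (g⁻¹).S = sh (-g.p) g.S := rfl

instance : Group LG where
  mul_assoc a b c := by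
    apply LG.ext
    · ext z
      simp only [mul_S, mul_p, Finset.mem_symmDiff, mem_sh, sub_sub]
      tauto
    · simp [add_assoc]
  one_mul a := by
    apply LG.ext
    · ext z
      simp [mul_S, Finset.mem_symmDiff, mem_sh]
    · simp
  mul_one a := by
    apply LG.ext
    · ext z
      simp [mul_S, Finset.mem_symmDiff, mem_sh]
    · simp
  inv_mul_cancel a := by
    apply LG.ext
    · ext z
      simp [mul_S, Finset.mem_symmDiff, mem_sh, inv_S]
    · simp

end LG

open LG

/-- the two generators -/
def r (c : Bool) : LG := ⟨cond c {0} ∅, 1⟩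

theorem r_inj : Function.Injective r := by
  intro c c' h
  have := congrArg LG.S h
  cases c <;> cases c' <;> simp [r] at this <;> rfl

/-- letter: toggle bit `c`, direction `d` (true = right) -/
def lt (c d : Bool) : LG := if d then r c else (r c)⁻¹

theorem mul_r (g : LG) (c : Bool) : g * r c = ⟨g.S ∆ cond c {g.p} ∅, g.p + 1⟩ := by
  apply LG.ext
  · ext z
    cases c <;> simp [mul_S, r, Finset.mem_symmDiff, mem_sh, sub_eq_zero]
  · rfl

theorem mul_rinv (g : LG) (c : Bool) : g * (r c)⁻¹ = ⟨g.S ∆ cond c {g.p - 1} ∅, g.p - 1⟩ := by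
  apply LG.ext
  · ext z
    cases c
    · simp [mul_S, r, Finset.mem_symmDiff, mem_sh, inv_S]
    · have : z - g.p + 1 = 0 ↔ z = g.p - 1 := by omega
      simp [mul_S, r, Finset.mem_symmDiff, mem_sh, inv_S, this]
  · simp [r, sub_eq_add_neg]

/-- length of the part of the hull to the left -/
def ll (g : LG) : ℕ := g.S.sup (fun z => (min 0 g.p - z).toNat)
def rr (g : LG) : ℕ := g.S.sup (fun z => (z + 1 - max 0 g.p).toNat)
/-- the word length -/
def len (g : LG) : ℕ := g.p.natAbs + 2 * ll g + 2 * rr g

theorem ll_le_iff (g : LG) (n : ℕ) : ll g ≤ n ↔ ∀ z ∈ g.S, min 0 g.p - z ≤ n := by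
  unfold ll
  rw [Finset.sup_le_iff]
  constructor
  · intro h z hz; have := h z hz; omega
  · intro h z hz; have := h z hz; omega

theorem rr_le_iff (g : LG) (n : ℕ) : rr g ≤ n ↔ ∀ z ∈ g.S, z + 1 - max 0 g.p ≤ n := by
  unfold rr
  rw [Finset.sup_le_iff]
  constructor
  · intro h z hz; have := h z hz; omega
  · intro h z hz; have := h z hz; omega

theorem ll_spec (g : LG) : ∀ z ∈ g.S, min 0 g.p - z ≤ ll g := (ll_le_iff g _).1 le_rfl
theorem rr_spec (g : LG) : ∀ z ∈ g.S, z + 1 - max 0 g.p ≤ rr g := (rr_le_iff g _).1 le_rfl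

theorem len_one : len 1 = 0 := by simp [len, ll, rr]

theorem mem_or (S : Finset ℤ) (c : Bool) (q z : ℤ) (h : z ∈ S ∆ cond c {q} ∅) : z ∈ S ∨ z = q := by
  cases c
  · left; simpa [Finset.mem_symmDiff] using h
  · simp [Finset.mem_symmDiff] at h; tauto

theorem len_mul_r (g : LG) (c : Bool) : len (g * r c) ≤ len g + 1 := by
  rw [mul_r]
  have hl := ll_spec g
  have hr := rr_spec g
  set l := ll g with hl'
  set m := rr g with hm'
  rcases le_or_gt 0 g.p with hp | hp
  · have h1 : ll ⟨g.S ∆ cond c {g.p} ∅, g.p + 1⟩ ≤ l := by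
      rw [ll_le_iff]
      intro z hz
      rcases mem_or _ _ _ _ hz with h | h
      · have := hl z h; simp only; omega
      · simp only; omega
    have h2 : rr ⟨g.S ∆ cond c {g.p} ∅, g.p + 1⟩ ≤ m := by
      rw [rr_le_iff]
      intro z hz
      rcases mem_or _ _ _ _ hz with h | h
      · have := hr z h; simp only; omega
      · simp only; omega
    unfold len
    simp only
    omega
  · have h1 : ll ⟨g.S ∆ cond c {g.p} ∅, g.p + 1⟩ ≤ l + 1 := by
      rw [ll_le_iff]
      intro z hz
      rcases mem_or _ _ _ _ hz with h | h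
      · have := hl z h; simp only; omega
      · simp only; omega
    have h2 : rr ⟨g.S ∆ cond c {g.p} ∅, g.p + 1⟩ ≤ m := by
      rw [rr_le_iff]
      intro z hz
      rcases mem_or _ _ _ _ hz with h | h
      · have := hr z h; simp only; omega
      · simp only; omega
    unfold len
    simp only
    omega

theorem len_mul_rinv (g : LG) (c : Bool) : len (g * (r c)⁻¹) ≤ len g + 1 := by
  rw [mul_rinv]
  have hl := ll_spec g
  have hr := rr_spec g
  set l := ll g with hl'
  set m := rr g with hm'
  rcases le_or_gt g.p 0 with hp | hp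
  · have h1 : ll ⟨g.S ∆ cond c {g.p - 1} ∅, g.p - 1⟩ ≤ l := by
      rw [ll_le_iff]
      intro z hz
      rcases mem_or _ _ _ _ hz with h | h
      · have := hl z h; simp only; omega
      · simp only; omega
    have h2 : rr ⟨g.S ∆ cond c {g.p - 1} ∅, g.p - 1⟩ ≤ m := by
      rw [rr_le_iff]
      intro z hz
      rcases mem_or _ _ _ _ hz with h | h
      · have := hr z h; simp only; omega
      · simp only; omega
    unfold len
    simp only
    omega
  · have h1 : ll ⟨g.S ∆ cond c {g.p - 1} ∅, g.p - 1⟩ ≤ l := by
      rw [ll_le_iff]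
      intro z hz
      rcases mem_or _ _ _ _ hz with h | h
      · have := hl z h; simp only; omega
      · simp only; omega
    have h2 : rr ⟨g.S ∆ cond c {g.p - 1} ∅, g.p - 1⟩ ≤ m + 1 := by
      rw [rr_le_iff]
      intro z hz
      rcases mem_or _ _ _ _ hz with h | h
      · have := hr z h; simp only; omega
      · simp only; omega
    unfold len
    simp only
    omega

/-- a word: list of (toggle, direction) -/
abbrev W := List (Bool × Bool)

def val (w : W) : LG := (w.map (fun x => lt x.1 x.2)).prod

@[simp] theorem val_nil : val [] = 1 := rfl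
@[simp] theorem val_append (u v : W) : val (u ++ v) = val u * val v := by simp [val]
@[simp] theorem val_cons (x : Bool × Bool) (v : W) : val (x :: v) = lt x.1 x.2 * val v := by
  simp [val]
theorem val_single (x : Bool × Bool) : val [x] = lt x.1 x.2 := by simp

theorem len_mul_lt (g : LG) (c d : Bool) : len (g * lt c d) ≤ len g + 1 := by
  cases d
  · exact len_mul_rinv g c
  · exact len_mul_r g c

theorem len_val_le (w : W) : len (val w) ≤ w.length := by
  induction w using List.reverseRecOn with
  | nil => simp [len_one]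
  | append_singleton w x ih =>
    rw [val_append, val_single, List.length_append, List.length_singleton]
    exact (len_mul_lt _ _ _).trans (by omega)

/-- sweep right toggling edges according to `f` -/
def sweep (f : ℤ → Bool) (q : ℤ) : ℕ → W
  | 0 => []
  | n + 1 => sweep f q n ++ [(f (q + n), true)]

theorem sweep_length (f : ℤ → Bool) (q : ℤ) (n : ℕ) : (sweep f q n).length = n := by
  induction n with
  | zero => rfl
  | succ n ih => simp [sweep, ih]

theorem sweep_p (f : ℤ → Bool) (g : LG) (n : ℕ) :
    (g * val (sweep f g.p n)).p = g.p + n := by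
  induction n with
  | zero => simp [sweep]
  | succ n ih =>
    rw [sweep, val_append, ← mul_assoc, val_single]
    simp only [lt, if_true, mul_p] at ih ⊢
    rw [ih]; simp [r]; ring

theorem sweep_S (f : ℤ → Bool) (g : LG) (n : ℕ) (z : ℤ) :
    z ∈ (g * val (sweep f g.p n)).S ↔
      ((z ∈ g.S ∧ ¬ (f z = true ∧ g.p ≤ z ∧ z < g.p + n)) ∨
       (¬ z ∈ g.S ∧ (f z = true ∧ g.p ≤ z ∧ z < g.p + n))) := by
  induction n with
  | zero =>
    simp only [sweep, val_nil, mul_one]
    constructor
    · intro h; left; refine ⟨h, ?_⟩; rintro ⟨_, h1, h2⟩; simp at h2; omega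
    · rintro (⟨h, _⟩ | ⟨_, _, h1, h2⟩)
      · exact h
      · simp at h2; omega
  | succ n ih =>
    rw [sweep, val_append, ← mul_assoc, val_single]
    simp only [lt, if_true]
    rw [mul_r]
    simp only
    rw [sweep_p]
    by_cases hz : z = g.p + n
    · subst hz
      cases hf : f (g.p + n)
      · simp only [cond_false]
        have : (g.p + n ∈ (g * val (sweep f g.p n)).S ∆ ∅) ↔
            (g.p + n ∈ (g * val (sweep f g.p n)).S) := by simp [Finset.mem_symmDiff]
        rw [this, ih]; simp [hf]
      · simp only [cond_true]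
        have : (g.p + n ∈ (g * val (sweep f g.p n)).S ∆ {g.p + (n : ℤ)}) ↔
            ¬ (g.p + n ∈ (g * val (sweep f g.p n)).S) := by simp [Finset.mem_symmDiff]
        rw [this, ih]; simp [hf]
    · have h1 : (z ∈ (g * val (sweep f g.p n)).S ∆ cond (f (g.p + n)) {g.p + (n : ℤ)} ∅) ↔
          (z ∈ (g * val (sweep f g.p n)).S) := by
        cases f (g.p + n) <;> simp [Finset.mem_symmDiff, hz]
      rw [h1, ih]
      have h2 : (z < g.p + n) ↔ (z < g.p + ((n + 1 : ℕ) : ℤ)) := by push_cast; omega
      rw [h2]

/-- move left without toggling -/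
theorem mul_left (g : LG) (n : ℕ) : g * val (List.replicate n (false, false)) = ⟨g.S, g.p - n⟩ := by
  induction n with
  | zero => apply LG.ext <;> simp
  | succ n ih =>
    rw [List.replicate_succ', val_append, ← mul_assoc, ih, val_single]
    simp only [lt]
    rw [if_neg (by simp), mul_rinv]
    apply LG.ext
    · simp
    · simp; ring

theorem exists_word_nonneg (g : LG) (hp : 0 ≤ g.p) : ∃ w : W, w.length = len g ∧ val w = g := by
  classical
  set l := ll g with hl
  set m := rr g with hm
  have hl' := ll_spec g
  have hr' := rr_spec g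
  set f : ℤ → Bool := fun z => decide (z ∈ g.S) with hf
  refine ⟨List.replicate l (false, false) ++ sweep f (-l) (l + g.p.toNat + m) ++
    List.replicate m (false, false), ?_, ?_⟩
  · simp only [List.length_append, List.length_replicate, sweep_length]
    unfold len; omega
  · have e1 : val (List.replicate l (false, false)) = ⟨∅, -l⟩ := by
      have := mul_left 1 l
      rw [one_mul] at this
      rw [this]; simp
    rw [val_append, val_append, e1]
    have e2 : (⟨∅, -l⟩ * val (sweep f (-l) (l + g.p.toNat + m)) : LG) = ⟨g.S, g.p + m⟩ := by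
      apply LG.ext
      · ext z
        have := sweep_S f ⟨∅, -l⟩ (l + g.p.toNat + m) z
        simp only at this
        rw [this]
        simp only [Finset.notMem_empty, false_and, not_false_eq_true, true_and, false_or, hf,
          decide_eq_true_eq]
        constructor
        · exact fun h => h.1
        · intro h
          have h1 := hl' z h
          have h2 := hr' z h
          refine ⟨h, ?_, ?_⟩ <;> push_cast <;> omega
      · have := sweep_p f ⟨∅, -l⟩ (l + g.p.toNat + m)
        simp only at this
        rw [this]; push_cast; omega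
    rw [e2, mul_left]
    apply LG.ext
    · rfl
    · simp

def invW (w : W) : W := (w.map (fun x => (x.1, !x.2))).reverse

theorem val_invW (w : W) : val (invW w) = (val w)⁻¹ := by
  induction w with
  | nil => simp [invW]
  | cons x w ih =>
    have : invW (x :: w) = invW w ++ [(x.1, !x.2)] := by simp [invW]
    rw [this, val_append, ih, val_single, val_cons, mul_inv_rev]
    congr 1
    simp only [lt]
    cases x.2 <;> simp

theorem len_inv (g : LG) : len g⁻¹ = len g := by
  have h1 : ll g⁻¹ = ll g := by
    unfold ll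
    rw [inv_S, sh, Finset.sup_map]
    apply Finset.sup_congr rfl
    intro z _
    simp; omega
  have h2 : rr g⁻¹ = rr g := by
    unfold rr
    rw [inv_S, sh, Finset.sup_map]
    apply Finset.sup_congr rfl
    intro z _
    simp; omega
  unfold len
  rw [h1, h2]; simp

theorem exists_word (g : LG) : ∃ w : W, w.length = len g ∧ val w = g := by
  rcases le_or_gt 0 g.p with hp | hp
  · exact exists_word_nonneg g hp
  · obtain ⟨w, h1, h2⟩ := exists_word_nonneg g⁻¹ (by simp; omega)
    refine ⟨invW w, ?_, ?_⟩
    · rw [← len_inv, ← h1]; simp [invW]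
    · rw [val_invW, h2, inv_inv]

end Pool.Agent.Helper285.Lamp
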