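import Pool.Agent.Helper285.Lamp

namespace Pool.Agent.Helper285.Lamp

open LG

/-- generating function of a weight -/
noncomputable def gf {α : Type} (w : α → ℕ) : PowerSeries ℚ :=
  PowerSeries.mk fun n => (Nat.card {a // w a = n} : ℚ)

theorem gf_congr {α β : Type} (e : α ≃ β) (w : α → ℕ) (v : β → ℕ) (h : ∀ a, v (e a) = w a) :
    gf w = gf v := by
  unfold gf
  congr 1
  ext n
  congr 1
  apply Nat.card_congr
  exact e.subtypeEquiv (fun a => by rw [h])

theorem gf_mul {α β : Type} (w : α → ℕ) (v : β → ℕ) (hw : ∀ n, Finite {a // w a = n})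
    (hv : ∀ n, Finite {b // v b = n}) :
    gf (fun p : α × β => w p.1 + v p.2) = gf w * gf v := by
  ext n
  unfold gf
  rw [PowerSeries.coeff_mul]
  simp only [PowerSeries.coeff_mk]
  let e : {p : α × β // w p.1 + v p.2 = n} ≃
      Σ ij : (Finset.HasAntidiagonal.antidiagonal n : Finset (ℕ × ℕ)), {a // w a = ij.1.1} × {b // v b = ij.1.2} :=
    { toFun := fun p => ⟨⟨(w p.1.1, v p.1.2), by simpa using p.2⟩, ⟨p.1.1, rfl⟩, ⟨p.1.2, rfl⟩⟩
      invFun := fun q => ⟨(q.2.1.1, q.2.2.1), by
        have := q.1.2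
        rw [Finset.HasAntidiagonal.mem_antidiagonal] at this
        rw [q.2.1.2, q.2.2.2]; exact this⟩
      left_inv := fun p => by simp
      right_inv := fun q => by
        obtain ⟨⟨⟨i, j⟩, hij⟩, ⟨a, ha⟩, ⟨b, hb⟩⟩ := q
        simp only at ha hb
        subst ha hb
        rfl }
  rw [Nat.card_congr e, Nat.card_sigma]
  push_cast
  rw [← Finset.sum_coe_sort (Finset.HasAntidiagonal.antidiagonal n)]
  apply Finset.sum_congr rfl
  intro ij _
  rw [Nat.card_prod]
  push_cast
  rfl

/-! the pieces -/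

def tau (A : Finset ℕ) : ℕ := A.sup (fun n => n + 1)

theorem tau_le_iff (A : Finset ℕ) (m : ℕ) : tau A ≤ m ↔ A ∈ (Finset.range m).powerset := by
  unfold tau
  rw [Finset.sup_le_iff, Finset.mem_powerset]
  constructor
  · intro h a ha; rw [Finset.mem_range]; exact h a ha
  · intro h a ha; exact Finset.mem_range.1 (h ha)

theorem tau_set (m : ℕ) : {A : Finset ℕ | tau A = m + 1} =
    (((Finset.range (m + 1)).powerset \ (Finset.range m).powerset : Finset (Finset ℕ)) :
      Set (Finset ℕ)) := by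
  ext A
  rw [Finset.mem_coe, Finset.mem_sdiff, ← tau_le_iff, ← tau_le_iff]
  simp only [Set.mem_ofPred_eq]
  omega

theorem tau_zero_set : {A : Finset ℕ | tau A = 0} =
    (((Finset.range 0).powerset : Finset (Finset ℕ)) : Set (Finset ℕ)) := by
  ext A
  rw [Finset.mem_coe, ← tau_le_iff]
  simp

theorem card_tau (m : ℕ) : Nat.card {A : Finset ℕ // tau A = m + 1} = 2 ^ m := by
  have h1 : Nat.card {A : Finset ℕ // tau A = m + 1} = Set.ncard {A : Finset ℕ | tau A = m + 1} :=
    rfl
  rw [h1, tau_set, Set.ncard_coe_finset, Finset.card_sdiff_of_subset]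
  · simp [pow_succ]; omega
  · apply Finset.powerset_mono.2
    intro x hx
    rw [Finset.mem_range] at *; omega

theorem card_tau_zero : Nat.card {A : Finset ℕ // tau A = 0} = 1 := by
  have h1 : Nat.card {A : Finset ℕ // tau A = 0} = Set.ncard {A : Finset ℕ | tau A = 0} := rfl
  rw [h1, tau_zero_set, Set.ncard_coe_finset]; simp

theorem finite_tau (m : ℕ) : Finite {A : Finset ℕ // tau A = m} := by
  have : {A : Finset ℕ | tau A = m}.Finite := by
    apply Set.Finite.subset (Finset.finite_toSet ((Finset.range m).powerset))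
    intro A hA
    rw [Finset.mem_coe, ← tau_le_iff]; exact le_of_eq hA
  exact this.to_subtype

/-- weight of a tail -/
def w2 (A : Finset ℕ) : ℕ := 2 * tau A

theorem finite_w2 (n : ℕ) : Finite {A : Finset ℕ // w2 A = n} := by
  have : {A : Finset ℕ | w2 A = n}.Finite := by
    apply Set.Finite.subset (Finset.finite_toSet ((Finset.range n).powerset))
    intro A hA
    rw [Finset.mem_coe, ← tau_le_iff]
    simp only [w2, Set.mem_ofPred_eq] at hA; omega
  exact this.to_subtype

theorem card_w2_zero : Nat.card {A : Finset ℕ // w2 A = 0} = 1 := by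
  rw [← card_tau_zero]
  apply Nat.card_congr
  apply Equiv.subtypeEquivRight
  intro A; simp [w2]

theorem card_w2_even (m : ℕ) : Nat.card {A : Finset ℕ // w2 A = 2 * m + 2} = 2 ^ m := by
  rw [← card_tau]
  apply Nat.card_congr
  apply Equiv.subtypeEquivRight
  intro A; simp only [w2]; omega

theorem card_w2_odd (m : ℕ) : Nat.card {A : Finset ℕ // w2 A = 2 * m + 1} = 0 := by
  have : IsEmpty {A : Finset ℕ // w2 A = 2 * m + 1} := ⟨fun A => by
    have := A.2; simp only [w2] at this; omega⟩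
  exact Nat.card_of_isEmpty

theorem gf_w2 : (1 - PowerSeries.C (2 : ℚ) * PowerSeries.X ^ 2) * gf w2 =
    1 - PowerSeries.X ^ 2 := by
  ext n
  rw [sub_mul, one_mul, mul_assoc, map_sub, PowerSeries.coeff_C_mul]
  simp only [gf, PowerSeries.coeff_mk, map_sub, PowerSeries.coeff_one, PowerSeries.coeff_X_pow,
    PowerSeries.coeff_X_pow_mul']
  rcases Nat.even_or_odd' n with ⟨m, rfl | rfl⟩
  · match m with
    | 0 => simp [card_w2_zero]
    | 1 =>
      have := card_w2_even 0
      simp only [mul_zero, zero_add, pow_zero] at this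
      simp [card_w2_zero, this]
      norm_num
    | m + 2 =>
      have h1 := card_w2_even (m + 1)
      have h2 := card_w2_even m
      have e1 : 2 * (m + 2) = 2 * (m + 1) + 2 := by ring
      have e2 : 2 * (m + 2) - 2 = 2 * m + 2 := by omega
      rw [if_pos (by omega), if_neg (by omega), if_neg (by omega), e2, e1, h1, h2]
      push_cast; ring
  · match m with
    | 0 =>
      have := card_w2_odd 0
      simp only [mul_zero, zero_add] at this
      simp [this]
    | m + 1 =>
      have h1 := card_w2_odd (m + 1)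
      have h2 := card_w2_odd m
      have e2 : 2 * (m + 1) + 1 - 2 = 2 * m + 1 := by omega
      rw [if_pos (by omega), if_neg (by omega), if_neg (by omega), e2, h1, h2]
      simp

abbrev Mid := Σ p : ℤ, Finset (Fin p.natAbs)

def w1 (x : Mid) : ℕ := x.1.natAbs

theorem card_w1 (n : ℕ) : Nat.card {x : Mid // w1 x = n} =
    Nat.card {p : ℤ // p.natAbs = n} * 2 ^ n := by
  have hfin : Finite {p : ℤ // p.natAbs = n} := by
    have : {p : ℤ | p.natAbs = n}.Finite := by
      apply Set.Finite.subset (Finset.finite_toSet (Finset.Icc (-(n : ℤ)) n))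
      intro p hp
      have hp' : p.natAbs = n := hp
      rw [Finset.mem_coe, Finset.mem_Icc]; omega
    exact this.to_subtype
  have e : {x : Mid // w1 x = n} ≃ Σ q : {p : ℤ // p.natAbs = n}, Finset (Fin q.1.natAbs) :=
    Equiv.subtypeSigmaEquiv (fun p : ℤ => Finset (Fin p.natAbs)) (fun p => p.natAbs = n)
  have := Fintype.ofFinite {p : ℤ // p.natAbs = n}
  rw [Nat.card_congr e, Nat.card_sigma]
  have h1 : ∀ q : {p : ℤ // p.natAbs = n}, Nat.card (Finset (Fin q.1.natAbs)) = 2 ^ n := by
    intro q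
    rw [Nat.card_eq_fintype_card, Fintype.card_finset, Fintype.card_fin, q.2]
  rw [Finset.sum_congr rfl (fun q _ => h1 q), Finset.sum_const, Nat.card_eq_fintype_card]
  simp

theorem card_abs_zero : Nat.card {p : ℤ // p.natAbs = 0} = 1 := by
  rw [Nat.card_eq_one_iff_unique]
  constructor
  · constructor
    rintro ⟨p, h⟩ ⟨q, h'⟩
    apply Subtype.ext; simp only; omega
  · exact ⟨⟨0, rfl⟩⟩

theorem card_abs_succ (n : ℕ) : Nat.card {p : ℤ // p.natAbs = n + 1} = 2 := by
  have h1 : Nat.card {p : ℤ // p.natAbs = n + 1} = Set.ncard {p : ℤ | p.natAbs = n + 1} := rfl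
  have h2 : {p : ℤ | p.natAbs = n + 1} =
      (({((n : ℤ) + 1), -((n : ℤ) + 1)} : Finset ℤ) : Set ℤ) := by
    ext p
    rw [Finset.mem_coe, Finset.mem_insert, Finset.mem_singleton]
    constructor
    · intro h
      have h' : p.natAbs = n + 1 := h
      omega
    · intro h
      show p.natAbs = n + 1
      omega
  rw [h1, h2, Set.ncard_coe_finset, Finset.card_pair (by omega)]

theorem card_w1_zero : Nat.card {x : Mid // w1 x = 0} = 1 := by
  rw [card_w1, card_abs_zero]; simp

theorem card_w1_succ (n : ℕ) : Nat.card {x : Mid // w1 x = n + 1} = 2 * 2 ^ (n + 1) := by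
  rw [card_w1, card_abs_succ]

theorem finite_w1 (n : ℕ) : Finite {x : Mid // w1 x = n} := by
  cases n with
  | zero => exact Nat.finite_of_card_ne_zero (by rw [card_w1_zero]; simp)
  | succ n => exact Nat.finite_of_card_ne_zero (by rw [card_w1_succ]; positivity)

theorem gf_w1 : (1 - PowerSeries.C (2 : ℚ) * PowerSeries.X) * gf w1 =
    1 + PowerSeries.C (2 : ℚ) * PowerSeries.X := by
  ext n
  rw [sub_mul, one_mul, mul_assoc, map_sub, map_add, PowerSeries.coeff_C_mul,
    PowerSeries.coeff_C_mul]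
  match n with
  | 0 =>
    simp [gf, card_w1_zero]
  | 1 =>
    rw [PowerSeries.coeff_succ_X_mul]
    simp [gf, card_w1_zero, card_w1_succ, PowerSeries.coeff_one]
    norm_num
  | n + 2 =>
    rw [PowerSeries.coeff_succ_X_mul]
    simp [gf, card_w1_succ, PowerSeries.coeff_one, PowerSeries.coeff_X]
    ring

/-! the bijection -/

def pos (p : ℤ) : ℕ ⊕ (Fin p.natAbs ⊕ ℕ) → ℤ
  | Sum.inl n => min 0 p - 1 - n
  | Sum.inr (Sum.inl i) => min 0 p + (i : ℕ)
  | Sum.inr (Sum.inr n) => max 0 p + n

theorem pos_bij (p : ℤ) : Function.Bijective (pos p) := by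
  constructor
  · rintro (n | i | n) (m | j | m) h <;> simp only [pos] at h
    · congr 1; omega
    · exfalso; have := j.2; omega
    · exfalso; omega
    · exfalso; have := i.2; omega
    · congr 2; apply Fin.ext; omega
    · exfalso; have := i.2; omega
    · exfalso; omega
    · exfalso; have := j.2; omega
    · congr 2; omega
  · intro z
    rcases lt_or_ge z (min 0 p) with h | h
    · exact ⟨Sum.inl (min 0 p - 1 - z).toNat, by simp only [pos]; omega⟩
    · rcases lt_or_ge z (max 0 p) with h' | h'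
      · exact ⟨Sum.inr (Sum.inl ⟨(z - min 0 p).toNat, by omega⟩), by simp only [pos]; omega⟩
      · exact ⟨Sum.inr (Sum.inr (z - max 0 p).toNat), by simp only [pos]; omega⟩

noncomputable def posE (p : ℤ) : ℕ ⊕ (Fin p.natAbs ⊕ ℕ) ≃ ℤ := Equiv.ofBijective _ (pos_bij p)

noncomputable def cfg (p : ℤ) : Finset ℕ × (Finset (Fin p.natAbs) × Finset ℕ) ≃ Finset ℤ :=
  (((Equiv.refl _).prodCongr Finset.sumEquiv.symm.toEquiv).trans
    Finset.sumEquiv.symm.toEquiv).trans (posE p).finsetCongr

theorem cfg_apply (p : ℤ) (A : Finset ℕ) (B : Finset (Fin p.natAbs)) (C : Finset ℕ) :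
    cfg p (A, B, C) = (A.disjSum (B.disjSum C)).map (posE p).toEmbedding := rfl

theorem ll_cfg (p : ℤ) (A : Finset ℕ) (B : Finset (Fin p.natAbs)) (C : Finset ℕ) :
    ll ⟨cfg p (A, B, C), p⟩ = tau A := by
  apply le_antisymm
  · rw [ll_le_iff]
    intro z hz
    simp only [cfg_apply, Finset.mem_map, Finset.mem_disjSum] at hz
    obtain ⟨x, hx, rfl⟩ := hz
    rcases hx with ⟨a, ha, rfl⟩ | ⟨y, hy, rfl⟩
    · have h1 : a + 1 ≤ tau A := Finset.le_sup (f := fun n => n + 1) ha
      simp only [posE, Equiv.toEmbedding_apply, Equiv.ofBijective_apply, pos]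
      omega
    · rcases hy with ⟨b, hb, rfl⟩ | ⟨c, hc, rfl⟩
      · simp only [posE, Equiv.toEmbedding_apply, Equiv.ofBijective_apply, pos]
        omega
      · simp only [posE, Equiv.toEmbedding_apply, Equiv.ofBijective_apply, pos]
        omega
  · unfold tau
    rw [Finset.sup_le_iff]
    intro a ha
    have := ll_spec ⟨cfg p (A, B, C), p⟩ (pos p (Sum.inl a)) (by
      simp only [cfg_apply, Finset.mem_map, Finset.mem_disjSum]
      exact ⟨Sum.inl a, Or.inl ⟨a, ha, rfl⟩, rfl⟩)
    simp only [pos] at this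
    omega

theorem rr_cfg (p : ℤ) (A : Finset ℕ) (B : Finset (Fin p.natAbs)) (C : Finset ℕ) :
    rr ⟨cfg p (A, B, C), p⟩ = tau C := by
  apply le_antisymm
  · rw [rr_le_iff]
    intro z hz
    simp only [cfg_apply, Finset.mem_map, Finset.mem_disjSum] at hz
    obtain ⟨x, hx, rfl⟩ := hz
    rcases hx with ⟨a, ha, rfl⟩ | ⟨y, hy, rfl⟩
    · simp only [posE, Equiv.toEmbedding_apply, Equiv.ofBijective_apply, pos]
      omega
    · rcases hy with ⟨b, hb, rfl⟩ | ⟨c, hc, rfl⟩
      · have := b.2
        simp only [posE, Equiv.toEmbedding_apply, Equiv.ofBijective_apply, pos]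
        omega
      · have h1 : c + 1 ≤ tau C := Finset.le_sup (f := fun n => n + 1) hc
        simp only [posE, Equiv.toEmbedding_apply, Equiv.ofBijective_apply, pos]
        omega
  · unfold tau
    rw [Finset.sup_le_iff]
    intro a ha
    have := rr_spec ⟨cfg p (A, B, C), p⟩ (pos p (Sum.inr (Sum.inr a))) (by
      simp only [cfg_apply, Finset.mem_map, Finset.mem_disjSum]
      exact ⟨Sum.inr (Sum.inr a), Or.inr ⟨Sum.inr a, Or.inr ⟨a, ha, rfl⟩, rfl⟩, rfl⟩)
    simp only [pos] at this
    omega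

noncomputable def big : Mid × (Finset ℕ × Finset ℕ) ≃ LG where
  toFun x := ⟨cfg x.1.1 (x.2.1, x.1.2, x.2.2), x.1.1⟩
  invFun g := (⟨g.p, ((cfg g.p).symm g.S).2.1⟩, (((cfg g.p).symm g.S).1, ((cfg g.p).symm g.S).2.2))
  left_inv x := by
    obtain ⟨⟨p, B⟩, A, C⟩ := x
    simp
  right_inv g := by
    apply LG.ext
    · simp
    · rfl

theorem len_big (x : Mid × (Finset ℕ × Finset ℕ)) :
    len (big x) = w1 x.1 + (w2 x.2.1 + w2 x.2.2) := by
  obtain ⟨⟨p, B⟩, A, C⟩ := x
  simp only [big, Equiv.coe_fn_mk, len]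
  rw [ll_cfg, rr_cfg]
  simp only [w1, w2]; ring

theorem finite_pair (n : ℕ) : Finite {x : Finset ℕ × Finset ℕ // w2 x.1 + w2 x.2 = n} := by
  have : {x : Finset ℕ × Finset ℕ | w2 x.1 + w2 x.2 = n}.Finite := by
    apply Set.Finite.subset ((Finset.finite_toSet ((Finset.range n).powerset)).prod
      (Finset.finite_toSet ((Finset.range n).powerset)))
    rintro ⟨A, B⟩ h
    simp only [w2, Set.mem_ofPred_eq] at h
    refine ⟨?_, ?_⟩
    · show A ∈ ((Finset.range n).powerset : Set (Finset ℕ))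
      rw [Finset.mem_coe, ← tau_le_iff]; omega
    · show B ∈ ((Finset.range n).powerset : Set (Finset ℕ))
      rw [Finset.mem_coe, ← tau_le_iff]; omega
  exact this.to_subtype

theorem gf_len : gf len = gf w1 * (gf w2 * gf w2) := by
  rw [← gf_mul w2 w2 finite_w2 finite_w2, ← gf_mul w1 _ finite_w1 finite_pair]
  exact (gf_congr big _ _ len_big).symm

open Polynomial in
theorem rational : ∃ P Q : ℚ[X], Q ≠ 0 ∧ (Q : PowerSeries ℚ) * gf len = (P : PowerSeries ℚ) := by
  refine ⟨(1 + C 2 * X) * ((1 - X ^ 2) * (1 - X ^ 2)),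
    (1 - C 2 * X) * ((1 - C 2 * X ^ 2) * (1 - C 2 * X ^ 2)), ?_, ?_⟩
  · intro h
    have := congrArg (eval 0) h
    simp at this
  · rw [gf_len]
    have h1 := gf_w1
    have h2 := gf_w2
    push_cast
    rw [← h1, ← h2]
    ring

end Pool.Agent.Helper285.Lamp
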