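import Pool.Agent.Helper285.LampGrowth

namespace Pool.Agent.Helper285.Lamp

open LG

/-- position after k letters -/
def P (w : W) (k : ℕ) : ℤ := (val (w.take k)).p

def dsp (x : Bool × Bool) : ℤ := if x.2 then 1 else -1

theorem lt_p (c d : Bool) : (lt c d).p = if d then 1 else -1 := by
  cases d <;> simp [lt, r]

theorem val_p (w : W) : (val w).p = (w.map dsp).sum := by
  induction w with
  | nil => simp
  | cons x w ih => rw [val_cons, mul_p, ih, lt_p]; simp [dsp]

theorem P_zero (w : W) : P w 0 = 0 := by simp [P]

theorem P_append (u x : W) (k : ℕ) : P (u ++ x) k = P u k + P x (k - u.length) := by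
  unfold P
  rw [List.take_append, val_append, mul_p]

theorem P_of_ge (w : W) {k : ℕ} (h : w.length ≤ k) : P w k = (val w).p := by
  unfold P; rw [List.take_of_length_le h]

theorem P_lip1 (w : W) (k : ℕ) : P w (k + 1) ≤ P w k + 1 ∧ P w k ≤ P w (k + 1) + 1 := by
  unfold P
  rcases Nat.lt_or_ge k w.length with h | h
  · rw [List.take_add_one, List.getElem?_eq_getElem h]
    simp only [Option.toList_some, val_append, mul_p, val_single, lt_p]
    split_ifs <;> omega
  · rw [List.take_of_length_le h, List.take_of_length_le (by omega)]; omega

theorem P_lip (w : W) (k m : ℕ) : P w (k + m) ≤ P w k + m ∧ P w k ≤ P w (k + m) + m := by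
  induction m with
  | zero => simp
  | succ m ih =>
    have := P_lip1 w (k + m)
    rw [← add_assoc]
    push_cast
    omega

theorem P_lip' (w : W) {k m : ℕ} (h : k ≤ m) : P w m ≤ P w k + (m - k) ∧ P w k ≤ P w m + (m - k) := by
  obtain ⟨d, rfl⟩ := Nat.exists_eq_add_of_le h
  have := P_lip w k d
  push_cast
  omega

/-- lit edges are crossed -/
theorem crossed (w : W) (z : ℤ) (hz : z ∈ (val w).S) :
    ∃ k < w.length, (P w k = z ∧ P w (k + 1) = z + 1) ∨ (P w k = z + 1 ∧ P w (k + 1) = z) := by
  induction w using List.reverseRecOn with
  | nil => simp at hz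
  | append_singleton w x ih =>
    rw [val_append, val_single] at hz
    have hP : ∀ k ≤ w.length, P (w ++ [x]) k = P w k := by
      intro k hk
      rw [P_append]
      have : k - w.length = 0 := by omega
      rw [this, P_zero, add_zero]
    have hlast : P (w ++ [x]) (w.length + 1) = (val w).p + (if x.2 then 1 else -1) := by
      rw [P_of_ge _ (by simp), val_append, mul_p, val_single, lt_p]
    have hw : P w w.length = (val w).p := P_of_ge _ le_rfl
    by_cases h : z ∈ (val w).S
    · obtain ⟨k, hk, h1⟩ := ih h
      refine ⟨k, by simp; omega, ?_⟩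
      rw [hP k (by omega), hP (k + 1) (by omega)]; exact h1
    · refine ⟨w.length, by simp, ?_⟩
      rw [hP _ le_rfl, hlast, hw]
      obtain ⟨c, d⟩ := x
      cases d
      · simp only [lt] at hz
        rw [if_neg (by simp), mul_rinv] at hz
        rcases mem_or _ _ _ _ hz with h1 | h1
        · exact absurd h1 h
        · right; simp; omega
      · simp only [lt, if_true] at hz
        rw [mul_r] at hz
        rcases mem_or _ _ _ _ hz with h1 | h1
        · exact absurd h1 h
        · left; simp; omega

/-- upper bound for the length from the visited range -/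
theorem len_le_of_range (w : W) (a b : ℕ) (h : ∀ k, -(a : ℤ) ≤ P w k ∧ P w k ≤ b) :
    (len (val w) : ℤ) ≤ 2 * a + 2 * b - |(val w).p| := by
  have hp := h w.length
  rw [P_of_ge _ le_rfl] at hp
  have h1 : ll (val w) ≤ (a + min 0 (val w).p).toNat := by
    rw [ll_le_iff]
    intro z hz
    obtain ⟨k, _, h1 | h1⟩ := crossed w z hz
    · have := h k; omega
    · have := h (k + 1); omega
  have h2 : rr (val w) ≤ (b - max 0 (val w).p).toNat := by
    rw [rr_le_iff]
    intro z hz
    obtain ⟨k, _, h1 | h1⟩ := crossed w z hz
    · have := h (k + 1); omega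
    · have := h k; omega
  unfold len
  push_cast
  have h3 : ((val w).p.natAbs : ℤ) = |(val w).p| := by simp
  rcases le_or_gt 0 (val w).p with h4 | h4
  · rw [abs_of_nonneg h4]; omega
  · rw [abs_of_neg h4]; omega

def allR (w : W) : Prop := ∀ x ∈ w, x.2 = true

theorem allR_of_p (w : W) (h : (val w).p = w.length) : allR w := by
  have key : ∀ w : W, (val w).p ≤ w.length := by
    intro w
    have := P_lip w 0 w.length
    rw [zero_add, P_zero, P_of_ge _ le_rfl] at this
    omega
  induction w with
  | nil => intro x hx; simp at hx
  | cons y w ih =>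
    rw [val_cons, mul_p, lt_p, List.length_cons] at h
    have := key w
    intro x hx
    rcases List.mem_cons.1 hx with rfl | hx
    · by_contra hne
      simp [hne] at h
      omega
    · apply ih _ x hx
      split_ifs at h <;> push_cast at h <;> omega

theorem P_allR (w : W) (h : allR w) (k : ℕ) : P w k = min k w.length := by
  have key : ∀ w : W, allR w → (val w).p = w.length := by
    intro w hw
    induction w with
    | nil => simp
    | cons y w ih =>
      rw [val_cons, mul_p, lt_p, ih (fun x hx => hw x (List.mem_cons_of_mem _ hx)),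
        hw y List.mem_cons_self]
      simp; ring
  unfold P
  rw [key _ (fun x hx => h x (List.mem_of_mem_take hx)), List.length_take]

/-- the test element -/
def gN (N M : ℕ) : LG := ⟨{-(M : ℤ), (N : ℤ) - 1}, -1⟩

theorem len_gN (N M : ℕ) (hN : 1 ≤ N) (hM : 2 ≤ M) : len (gN N M) = 2 * N + 2 * M - 1 := by
  have h1 : ll (gN N M) = M - 1 := by
    apply le_antisymm
    · rw [ll_le_iff]
      intro z hz
      simp only [gN, Finset.mem_insert, Finset.mem_singleton] at hz ⊢
      omega
    · have := ll_spec (gN N M) (-(M : ℤ)) (by simp [gN])
      simp only [gN] at this ⊢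
      omega
  have h2 : rr (gN N M) = N := by
    apply le_antisymm
    · rw [rr_le_iff]
      intro z hz
      simp only [gN, Finset.mem_insert, Finset.mem_singleton] at hz ⊢
      omega
    · have := rr_spec (gN N M) ((N : ℤ) - 1) (by simp [gN])
      simp only [gN] at this ⊢
      omega
  unfold len
  rw [h1, h2]
  simp only [gN]
  omega

/-- geometry of geodesics for the test element -/
theorem geod (N M : ℕ) (hN : 1 ≤ N) (hM : 2 ≤ M) (w : W) (hw : val w = gN N M)
    (hl : w.length = 2 * N + 2 * M - 1) :
    P w N = N ∧ ∀ k, -(M : ℤ) ≤ P w k ∧ P w k ≤ N := by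
  have hend : P w w.length = -1 := by rw [P_of_ge _ le_rfl, hw]; rfl
  obtain ⟨k1, hk1, e1⟩ : ∃ k ≤ w.length, P w k = N := by
    obtain ⟨k, hk, h | h⟩ := crossed w ((N : ℤ) - 1) (by rw [hw]; simp [gN])
    · exact ⟨k + 1, by omega, by omega⟩
    · exact ⟨k, by omega, by omega⟩
  obtain ⟨k2, hk2, e2⟩ : ∃ k ≤ w.length, P w k = -(M : ℤ) := by
    obtain ⟨k, hk, h | h⟩ := crossed w (-(M : ℤ)) (by rw [hw]; simp [gN])
    · exact ⟨k, by omega, h.1⟩
    · exact ⟨k + 1, by omega, h.2⟩
  have a1 := P_lip' w (Nat.zero_le k1)
  have a2 := P_lip' w (Nat.zero_le k2)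
  have a3 := P_lip' w hk1
  have a4 := P_lip' w hk2
  rw [P_zero] at a1 a2
  rcases le_total k1 k2 with h12 | h12
  · have a5 := P_lip' w h12
    have hk1' : k1 = N := by push_cast at *; omega
    have hk2' : k2 = 2 * N + M := by push_cast at *; omega
    subst hk1'
    refine ⟨e1, ?_⟩
    intro k
    rcases le_total k k1 with h | h
    · have b1 := P_lip' w (Nat.zero_le k)
      have b2 := P_lip' w h
      rw [P_zero] at b1
      push_cast at *; omega
    · rcases le_total k k2 with h' | h'
      · have b1 := P_lip' w h
        have b2 := P_lip' w h'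
        push_cast at *; omega
      · rcases le_total k w.length with h'' | h''
        · have b1 := P_lip' w h'
          have b2 := P_lip' w h''
          push_cast at *; omega
        · rw [P_of_ge _ h'', hw]
          simp only [gN]; omega
  · have a5 := P_lip' w h12
    exfalso
    push_cast at *; omega

/-- no regular language of geodesics contains representatives of all test elements -/
theorem no_regular {α : Type} (tr : α → Bool × Bool) (σ : Type) [Fintype σ] (D : DFA α σ)
    (hgeo : ∀ w ∈ D.accepts, w.length ≤ len (val (w.map tr)))
    (hsur : ∀ g : LG, ∃ w ∈ D.accepts, val (w.map tr) = g) : False := by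
  set N := Fintype.card σ + 1 with hN
  set M := 2 * N + 2 with hM
  obtain ⟨w, hwD, hwg⟩ := hsur (gN N M)
  have hlen : w.length = 2 * N + 2 * M - 1 := by
    apply le_antisymm
    · have := hgeo w hwD
      rw [hwg, len_gN N M (by omega) (by omega)] at this; exact this
    · have := len_val_le (w.map tr)
      rw [hwg, len_gN N M (by omega) (by omega), List.length_map] at this; exact this
  obtain ⟨hPN, hrange⟩ := geod N M (by omega) (by omega) (w.map tr) hwg (by simpa using hlen)
  -- pigeonhole
  have hmap : ¬ Function.Injective (fun j : Fin N => D.eval (w.take j)) := by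
    intro hinj
    have := Fintype.card_le_of_injective _ hinj
    simp at this
    omega
  rw [Function.Injective] at hmap
  push Not at hmap
  obtain ⟨i, j, hij, hne⟩ := hmap
  wlog hlt : i < j generalizing i j
  · exact this j i hij.symm hne.symm (lt_of_le_of_ne (not_lt.1 hlt) hne.symm)
  have hi := i.2
  have hj := j.2
  have hlt' : (i : ℕ) < j := hlt
  set u := w.take i with hu
  set v := (w.take j).drop i with hv
  set x := w.drop j with hx
  have huv : u ++ v = w.take j := by
    have : u = (w.take j).take i := by rw [List.take_take, min_eq_left hlt'.le]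
    rw [this, hv, List.take_append_drop]
  have hw : u ++ v ++ x = w := by rw [huv, hx, List.take_append_drop]
  have hul : u.length = i := by rw [hu, List.length_take]; omega
  have hvl : v.length = j - i := by rw [hv, List.length_drop, List.length_take]; omega
  have hij' : D.eval (u ++ v) = D.eval u := by rw [huv]; exact hij.symm
  have hloop : D.evalFrom (D.eval u) v = D.eval u := by
    have h1 := D.evalFrom_of_append D.start u v
    exact h1.symm.trans hij'
  set w' := u ++ (v ++ (v ++ (v ++ x))) with hw'
  have hw'D : w' ∈ D.accepts := by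
    rw [DFA.mem_accepts] at hwD ⊢
    have e1 : D.eval w' = D.evalFrom (D.eval u) x := by
      rw [hw', DFA.eval, DFA.evalFrom_of_append, ← DFA.eval, DFA.evalFrom_of_append, hloop,
        DFA.evalFrom_of_append, hloop, DFA.evalFrom_of_append, hloop]
    have e2 : D.eval w = D.evalFrom (D.eval u) x := by
      rw [← hw, List.append_assoc, DFA.eval, DFA.evalFrom_of_append, ← DFA.eval,
        DFA.evalFrom_of_append, hloop]
    rw [e1, ← e2]; exact hwD
  -- right moving letters
  have hall : allR ((w.map tr).take N) := by
    apply allR_of_p
    have h1 : (val ((w.map tr).take N)).p = N := hPN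
    rw [h1, List.length_take, List.length_map]; push_cast; omega
  have hallu : allR (u.map tr) := by
    intro y hy
    apply hall
    rw [hu, List.map_take] at hy
    have : (w.map tr).take i = ((w.map tr).take N).take i := by
      rw [List.take_take, min_eq_left (by omega)]
    rw [this] at hy
    exact List.mem_of_mem_take hy
  have hallv : allR (v.map tr) := by
    intro y hy
    apply hall
    rw [hv, List.map_drop, List.map_take] at hy
    have : (w.map tr).take j = ((w.map tr).take N).take j := by
      rw [List.take_take, min_eq_left (by omega)]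
    rw [this] at hy
    exact List.mem_of_mem_take (List.mem_of_mem_drop hy)
  set c := v.length with hc
  have hc1 : 1 ≤ c := by omega
  have hPx : ∀ m, -(M : ℤ) ≤ (u.length + c : ℤ) + P (x.map tr) m ∧
      (u.length + c : ℤ) + P (x.map tr) m ≤ N := by
    intro m
    have h1 := hrange (m + (u.length + c))
    rw [← hw, List.map_append, List.map_append, List.append_assoc, P_append, P_append,
      P_allR _ hallu, P_allR _ hallv] at h1
    simp only [List.length_map, ← hc] at h1
    have e1 : m + (u.length + c) - u.length - c = m := by omega
    rw [e1] at h1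
    push_cast at h1
    omega
  have hP' : ∀ k, -((M - 2 * c : ℕ) : ℤ) ≤ P (w'.map tr) k ∧ P (w'.map tr) k ≤ ((N + 2 * c : ℕ) : ℤ) := by
    intro k
    rw [hw', List.map_append, List.map_append, List.map_append, List.map_append, P_append, P_append,
      P_append, P_append, P_allR _ hallu, P_allR _ hallv, P_allR _ hallv, P_allR _ hallv]
    simp only [List.length_map, ← hc]
    have h1 := hPx (k - u.length - c - c - c)
    rcases Nat.lt_or_ge (u.length + 3 * c) k with h2 | h2
    · push_cast at *; omega
    · have : k - u.length - c - c - c = 0 := by omega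
      rw [this, P_zero] at *
      push_cast at *; omega
  have hfinal : (val (w'.map tr)).p = 2 * c - 1 := by
    have h1 : (val (w.map tr)).p = -1 := by rw [hwg]; rfl
    rw [← hw] at h1
    have h2 : (val (v.map tr)).p = c := by
      have := P_allR _ hallv (v.map tr).length
      rw [P_of_ge _ le_rfl] at this
      simpa using this
    simp only [hw', List.map_append, val_append, mul_p] at h1 ⊢
    rw [h2] at *
    linarith
  have h1 := len_le_of_range (w'.map tr) (M - 2 * c) (N + 2 * c) hP'
  have h2 := hgeo w' hw'D
  have h3 : w'.length = w.length + 2 * c := by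
    rw [hw', ← hw]; simp only [List.length_append]; omega
  rw [hfinal, abs_of_nonneg (by omega)] at h1
  rw [h3, hlen] at h2
  push_cast at *
  omega

end Pool.Agent.Helper285.Lamp
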